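import Mathlib
import Pool.Agent.Lib.MP_5a9afa_al.Tower

namespace Pool.Agent.Results.MP_5a9afa_al.PowersOfUSR1

open Pool.Agent.Lib.MP_5a9afa_al

/-- An element `a` of a ring `R` has unit stable range one if for every `b` with
`R a + R b = R` there is a unit `r` such that `a + r b` is a unit. -/
def HasUSR1 {R : Type*} [Ring R] (a : R) : Prop :=
  ∀ b : R, (∃ p q : R, p * a + q * b = 1) → ∃ r : Rˣ, IsUnit (a + r * b)

/-- The second formulation of the problem file: for every `x` there is a unit `u` such that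
`(u + x) a - 1` is a unit. -/
def HasUSR1' {R : Type*} [Ring R] (a : R) : Prop :=
  ∀ x : R, ∃ u : Rˣ, IsUnit ((u + x) * a - 1)

lemma HasUSR1.toPrime {R : Type*} [Ring R] {a : R} (h : HasUSR1 a) : HasUSR1' a := by
  intro x
  obtain ⟨r, hr⟩ := h (1 - x * a) ⟨x, 1, by simp⟩
  refine ⟨-r⁻¹, ?_⟩
  have h1 : ((-r⁻¹ : Rˣ) + x) * a - 1 = (-r⁻¹ : Rˣ) * (a + r * (1 - x * a)) := by
    rw [mul_add, ← mul_assoc, Units.val_neg, neg_mul, neg_mul, neg_mul, Units.inv_mul]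
    rw [add_mul]
    simp
    abel
  rw [h1]
  exact (Units.isUnit _).mul hr

/-- There is a commutative integral domain `R` with an element `a` that has unit stable range one,
while no power `a ^ n` with `n ≥ 2` has unit stable range one (in either formulation). -/
theorem result : ∃ (R : Type) (_ : CommRing R) (_ : IsDomain R) (a : R),
    HasUSR1 a ∧ HasUSR1' a ∧ ∀ n : ℕ, 2 ≤ n → ¬ HasUSR1 (a ^ n) ∧ ¬ HasUSR1' (a ^ n) := by
  obtain ⟨a, R, hgood, hsol⟩ := final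
  have husr : HasUSR1 (⟨a, hgood.a_mem⟩ : R) := by
    rintro ⟨b, hb⟩ ⟨⟨p, hp⟩, ⟨q, hq⟩, h⟩
    obtain ⟨r, hr, hr0, hr', h0, h'⟩ := hsol b hb ⟨p, hp, q, hq, congrArg Subtype.val h⟩
    refine ⟨⟨⟨r, hr⟩, ⟨r⁻¹, hr'⟩, Subtype.ext (mul_inv_cancel₀ hr0),
      Subtype.ext (inv_mul_cancel₀ hr0)⟩, ?_⟩
    exact IsUnit.of_mul_eq_one (⟨(a + r * b)⁻¹, h'⟩ : R) (Subtype.ext (mul_inv_cancel₀ h0))
  have hnot : ∀ n : ℕ, 2 ≤ n → ¬ HasUSR1' ((⟨a, hgood.a_mem⟩ : R) ^ n) := by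
    intro n hn h
    obtain ⟨u, w, hw⟩ := h 0
    rw [add_zero] at hw
    have e : ∀ x : Rˣ, ((x : R) : ℂ) ≠ 0 := fun x hx => x.ne_zero (Subtype.ext hx)
    have e' : ∀ x : Rˣ, ((x : R) : ℂ)⁻¹ ∈ R := by
      intro x
      have h1 : ((x : R) : ℂ) * ((x⁻¹ : Rˣ) : R) = 1 := congrArg Subtype.val x.mul_inv
      rw [← eq_inv_of_mul_eq_one_right h1]
      exact ((x⁻¹ : Rˣ) : R).2
    refine hgood.noSol n hn ((u : R) : ℂ) (u : R).2 (((-w : Rˣ) : R) : ℂ) ((-w : Rˣ) : R).2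
      (e u) (e (-w)) (e' u) (e' (-w)) ?_
    have h2 := congrArg Subtype.val hw
    have h3 : ((w : R) : ℂ) = (u : R) * a ^ n - 1 := by simpa using h2
    rw [Units.val_neg]
    push_cast
    rw [h3]
    ring
  exact ⟨R, inferInstance, inferInstance, ⟨a, hgood.a_mem⟩, husr, husr.toPrime,
    fun n hn => ⟨fun h => hnot n hn h.toPrime, hnot n hn⟩⟩

end Pool.Agent.Results.MP_5a9afa_al.PowersOfUSR1
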